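import Mathlib

set_option autoImplicit false

/-! Golod-Shafarevich groups in characteristic zero and the first Betti number. -/

namespace Pool.Agent.H286Z.GS

open scoped TensorProduct

/-- The term `γ_n F` of the lower central series of the free group `F` on `X`, numbered so that
`γ_1 F = F` and `γ_(n+1) F = [γ_n F, F]` (and `γ_0 F = F`). -/
def gam (X : Type) (n : ℕ) : Subgroup (FreeGroup X) :=
  (⊤ : Subgroup (FreeGroup X)).lowerCentralSeries (n - 1)

/-- The degree `D_0(f)`: the supremum, in `ℕ ∪ {∞}`, of the `n` with `f ∈ γ_n F`. So `D_0(f) = n`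
if `f` lies in `γ_n F` but not in `γ_(n+1) F`, and `D_0(1) = ∞`. -/
noncomputable def D0 {X : Type} (f : FreeGroup X) : ℕ∞ :=
  ⨆ (n : ℕ) (_ : f ∈ gam X n), (n : ℕ∞)

/-- The power `τ ^ d` for `d ∈ ℕ ∪ {∞}`, with `τ ^ ∞ = 0`. -/
noncomputable def tpow (τ : ℝ) (d : ℕ∞) : ℝ :=
  if d = ⊤ then 0 else τ ^ d.toNat

/-- `G` is Golod-Shafarevich in characteristic zero: it has a presentation `⟨X | R⟩` with `X` of
finite size `d` (and `R` any set) such that `1 - d τ + ∑_(r ∈ R) τ ^ D_0(r) < 0` for some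
`τ ∈ (0, 1)`, the series being convergent. -/
def IsGSCharZero (G : Type) [Group G] : Prop :=
  ∃ (d : ℕ) (R : Set (FreeGroup (Fin d))), Nonempty (G ≃* PresentedGroup R) ∧
    ∃ τ : ℝ, 0 < τ ∧ τ < 1 ∧ Summable (fun r : R => tpow τ (D0 r.1)) ∧
      1 - (d : ℝ) * τ + ∑' r : R, tpow τ (D0 r.1) < 0

/-- The first Betti number: the dimension over `ℚ` (a cardinal) of `ℚ ⊗ H / [H, H]`. -/
noncomputable def b1 (H : Type) [Group H] : Cardinal :=
  Module.rank ℚ (ℚ ⊗[ℤ] Additive (Abelianization H))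

end Pool.Agent.H286Z.GS
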