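import Pool.Agent.H286Z.GS.Defs

set_option autoImplicit false

namespace Pool.Agent.H286Z.GS

open scoped TensorProduct commutatorElement

/-- the Engel commutator `[h, x, ..., x]` with `n` entries `x` -/
def engel {G : Type} [Group G] (x : G) (n : ℕ) (h : G) : G := (fun g => ⁅g, x⁆)^[n] h

section
variable {G : Type} [Group G] (H : Subgroup G) [hN : H.Normal] [hF : H.FiniteIndex] (φ : G → ℚ)
  (hφ : ∀ a ∈ H, ∀ b ∈ H, φ (a * b) = φ a + φ b)

include hφ in
omit hN hF in
theorem phi_one : φ 1 = 0 := by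
  have := hφ 1 H.one_mem 1 H.one_mem
  simp at this
  exact this

include hφ in
omit hN hF in
theorem phi_inv (a : G) (ha : a ∈ H) : φ a⁻¹ = - φ a := by
  have := hφ a ha a⁻¹ (H.inv_mem ha)
  rw [mul_inv_cancel, phi_one H φ hφ] at this
  linarith

include hφ in
omit hN hF in
theorem phi_pow (a : G) (ha : a ∈ H) (k : ℕ) : φ (a ^ k) = k * φ a := by
  induction k with
  | zero => simp [phi_one H φ hφ]
  | succ k ih => rw [pow_succ, hφ _ (H.pow_mem ha k) _ ha, ih]; push_cast; ring

include hφ in
omit hN hF in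
theorem phi_conj_mem (a b : G) (ha : a ∈ H) (hb : b ∈ H) : φ (a * b * a⁻¹) = φ b := by
  rw [hφ _ (H.mul_mem ha hb) _ (H.inv_mem ha), hφ _ ha _ hb, phi_inv H φ hφ a ha]; ring

include hφ in
theorem const_of_engel (x : G) (n : ℕ) : ∀ h ∈ H, engel x n h = 1 →
    ∀ k : ℕ, φ (x ^ k * h * (x ^ k)⁻¹) = φ h := by
  induction n with
  | zero =>
    intro h _ h1 k
    have : h = 1 := h1
    subst this
    simp
  | succ n ih =>
    intro h hh h1
    have hc : ⁅h, x⁆ ∈ H := by
      rw [commutatorElement_def]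
      have := hN.conj_mem h⁻¹ (H.inv_mem hh) x
      simpa [mul_assoc] using H.mul_mem hh this
    have h2 := ih ⁅h, x⁆ hc h1
    have step : ∀ k : ℕ, φ (x ^ (k + 1) * h * (x ^ (k + 1))⁻¹)
        = φ (x ^ k * h * (x ^ k)⁻¹) - φ ⁅h, x⁆ := by
      intro k
      have e : x ^ k * ⁅h, x⁆ * (x ^ k)⁻¹
          = (x ^ k * h * (x ^ k)⁻¹) * (x ^ (k + 1) * h * (x ^ (k + 1))⁻¹)⁻¹ := by
        rw [commutatorElement_def, pow_succ]; group
      have m1 := hN.conj_mem h hh (x ^ k)
      have m2 := hN.conj_mem h hh (x ^ (k + 1))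
      have := h2 k
      rw [e, hφ _ m1 _ (H.inv_mem m2), phi_inv H φ hφ _ m2] at this
      linarith
    have lin : ∀ k : ℕ, φ (x ^ k * h * (x ^ k)⁻¹) = φ h - k * φ ⁅h, x⁆ := by
      intro k
      induction k with
      | zero => simp
      | succ k ihk => rw [step, ihk]; push_cast; ring
    have hm := lin H.index
    rw [phi_conj_mem H φ hφ _ _ (H.pow_index_mem x) hh] at hm
    have hne : (H.index : ℚ) ≠ 0 := by exact_mod_cast hF.index_ne_zero
    have h0 : φ ⁅h, x⁆ = 0 := by
      have : (H.index : ℚ) * φ ⁅h, x⁆ = 0 := by linarith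
      exact (mul_eq_zero.1 this).resolve_left hne
    intro k
    rw [lin, h0]; ring

include hφ in
theorem conj_inv (S : Set G) (hS : Subgroup.closure S = ⊤)
    (hE : ∀ x ∈ S, ∀ h : G, ∃ n, engel x n h = 1) (g : G) :
    ∀ h ∈ H, φ (g * h * g⁻¹) = φ h := by
  have hg : g ∈ Subgroup.closure S := by rw [hS]; trivial
  induction hg using Subgroup.closure_induction with
  | mem x hx =>
    intro h hh
    obtain ⟨n, hn⟩ := hE x hx h
    simpa using const_of_engel H φ hφ x n h hh hn 1
  | one => intro h _; simp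
  | mul a b _ _ iha ihb =>
    intro h hh
    have e : a * b * h * (a * b)⁻¹ = a * (b * h * b⁻¹) * a⁻¹ := by group
    rw [e, iha _ (hN.conj_mem h hh b), ihb h hh]
  | inv a _ iha =>
    intro h hh
    have := iha _ (hN.conj_mem h hh a⁻¹)
    have e : a * (a⁻¹ * h * a⁻¹⁻¹) * a⁻¹ = h := by group
    rw [e] at this
    exact this.symm

include hφ in
theorem vanish (S : Set G) (hS : Subgroup.closure S = ⊤)
    (hE : ∀ x ∈ S, ∀ h : G, ∃ n, engel x n h = 1) (h0 : ∀ x ∈ S, φ (x ^ H.index) = 0) :
    ∀ h ∈ H, φ h = 0 := by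
  classical
  have hinv := conj_inv H φ hφ S hS hE
  let ϕ : H →* Multiplicative ℚ :=
    { toFun := fun h => Multiplicative.ofAdd (φ h)
      map_one' := by simp [phi_one H φ hφ]
      map_mul' := fun a b => by
        rw [← ofAdd_add]; congr 1; exact hφ a a.2 b b.2 }
  have hne : (H.index : ℚ) ≠ 0 := by exact_mod_cast hF.index_ne_zero
  have key : ∀ g : G, Multiplicative.toAdd (MonoidHom.transfer ϕ g) = φ (g ^ H.index) := by
    intro g
    let _ := H.fintypeQuotientOfFiniteIndex
    let _ : Fintype (Quotient (MulAction.orbitRel (Subgroup.zpowers g) (G ⧸ H))) :=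
      Fintype.ofFinite _
    rw [MonoidHom.transfer_eq_prod_quotient_orbitRel_zpowers_quot, toAdd_prod]
    apply mul_left_cancel₀ hne
    rw [Finset.mul_sum]
    have hidx := Subgroup.index_eq_sum_minimalPeriod H g
    have : ∀ q : Quotient (MulAction.orbitRel (Subgroup.zpowers g) (G ⧸ H)),
        (H.index : ℚ) * Multiplicative.toAdd (ϕ ⟨q.out.out⁻¹ *
          g ^ Function.minimalPeriod (g • ·) q.out * q.out.out,
            QuotientGroup.out_conj_pow_minimalPeriod_mem H g q.out⟩)
          = (Function.minimalPeriod (g • ·) q.out : ℚ) * φ (g ^ H.index) := by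
      intro q
      have hm := QuotientGroup.out_conj_pow_minimalPeriod_mem H g q.out
      change (H.index : ℚ) * φ _ = _
      rw [← phi_pow H φ hφ _ hm, ← phi_pow H φ hφ _ (H.pow_index_mem g)]
      have e : (q.out.out⁻¹ * g ^ Function.minimalPeriod (g • ·) q.out * q.out.out) ^ H.index
          = q.out.out⁻¹ * (g ^ H.index) ^ Function.minimalPeriod (g • ·) q.out * q.out.out⁻¹⁻¹ := by
        rw [← pow_mul, mul_comm H.index, pow_mul, ← conj_pow, inv_inv]
      rw [e, hinv _ _ (H.pow_mem (H.pow_index_mem g) _)]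
    rw [Finset.sum_congr rfl (fun q _ => this q), ← Finset.sum_mul]
    congr 1
    rw [hidx]; push_cast; rfl
  have htr : MonoidHom.transfer ϕ = 1 := by
    apply MonoidHom.eq_of_eqOn_dense hS
    intro x hx
    have := key x
    rw [h0 x hx] at this
    simpa using this
  intro h hh
  have := key h
  rw [htr, phi_pow H φ hφ h hh] at this
  simp only [MonoidHom.one_apply, toAdd_one] at this
  exact (mul_eq_zero.1 this.symm).resolve_left hne

end

theorem b1_le {G : Type} [Group G] (d : ℕ) (x : Fin d → G)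
    (hS : Subgroup.closure (Set.range x) = ⊤)
    (hE : ∀ i, ∀ h : G, ∃ n, engel (x i) n h = 1) (K : Subgroup G) [hK : K.FiniteIndex] :
    b1 K ≤ d := by
  classical
  let H := K.normalCore
  have hHK : H ≤ K := K.normalCore_le
  let v : K → ℚ ⊗[ℤ] Additive (Abelianization K) :=
    fun k => (1 : ℚ) ⊗ₜ[ℤ] Additive.ofMul (Abelianization.of k)
  have hv : ∀ a b : K, v (a * b) = v a + v b := by
    intro a b
    simp only [v, map_mul, ofMul_mul, TensorProduct.tmul_add]
  let a : Fin d → ℚ ⊗[ℤ] Additive (Abelianization K) :=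
    fun i => v ⟨x i ^ H.index, hHK (H.pow_index_mem _)⟩
  have htop : Submodule.span ℚ (Set.range a) = ⊤ := by
    by_contra hne
    obtain ⟨f, hf0, hf⟩ := Submodule.exists_le_ker_of_lt_top _ (lt_top_iff_ne_top.2 hne)
    let φ : G → ℚ := fun g => if hg : g ∈ K then f (v ⟨g, hg⟩) else 0
    have hφK : ∀ a ∈ K, ∀ b ∈ K, φ (a * b) = φ a + φ b := by
      intro a ha b hb
      simp only [φ, dif_pos ha, dif_pos hb, dif_pos (K.mul_mem ha hb)]
      rw [← map_add, ← hv]; rfl
    have hφ : ∀ a ∈ H, ∀ b ∈ H, φ (a * b) = φ a + φ b :=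
      fun a ha b hb => hφK a (hHK ha) b (hHK hb)
    have hvan := vanish H φ hφ (Set.range x) hS
      (by rintro _ ⟨i, rfl⟩; exact hE i)
      (by
        rintro _ ⟨i, rfl⟩
        simp only [φ, dif_pos (hHK (H.pow_index_mem (x i)))]
        exact hf (Submodule.subset_span ⟨i, rfl⟩))
    have hne : (H.index : ℚ) ≠ 0 := by
      exact_mod_cast (inferInstance : H.FiniteIndex).index_ne_zero
    have hall : ∀ k : K, f (v k) = 0 := by
      intro k
      have h1 := hvan _ (H.pow_index_mem k.1)
      rw [phi_pow K φ hφK _ k.2] at h1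
      have h2 := (mul_eq_zero.1 h1).resolve_left hne
      simpa [φ] using h2
    apply hf0
    refine LinearMap.ext fun w => ?_
    induction w using TensorProduct.induction_on with
    | zero => simp
    | tmul q y =>
      obtain ⟨k, hk⟩ : ∃ k : K, Abelianization.of k = Additive.toMul y :=
        QuotientGroup.mk_surjective _
      have e : q ⊗ₜ[ℤ] y = q • v k := by
        simp only [v, hk, ofMul_toMul, TensorProduct.smul_tmul', smul_eq_mul, mul_one]
      rw [e, map_smul, hall]; simp
    | add y z hy hz => rw [map_add, hy, hz]; simp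
  unfold b1
  rw [← rank_top, ← htop]
  refine (rank_span_le _).trans ?_
  simpa using Cardinal.mk_range_le (f := a)

end Pool.Agent.H286Z.GS
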