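import Pool.Agent.H286Z.GS.Engel

set_option autoImplicit false

namespace Pool.Agent.H286Z.GS

open scoped TensorProduct commutatorElement

theorem engel_mem {G : Type} [Group G] (x h : G) (n : ℕ) :
    engel x n h ∈ (⊤ : Subgroup G).lowerCentralSeries n := by
  induction n with
  | zero => trivial
  | succ n ih =>
    rw [Subgroup.lowerCentralSeries_succ]
    unfold engel
    rw [Function.iterate_succ_apply']
    exact Subgroup.commutator_mem_commutator ih (Subgroup.mem_top x)

theorem map_engel {G G' : Type} [Group G] [Group G'] (f : G →* G') (x h : G) (n : ℕ) :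
    f (engel x n h) = engel (f x) n (f h) := by
  induction n with
  | zero => rfl
  | succ n ih =>
    unfold engel at *
    rw [Function.iterate_succ_apply', Function.iterate_succ_apply', map_commutatorElement, ih]

theorem tpow_nonneg {τ : ℝ} (h0 : 0 < τ) (d : ℕ∞) : 0 ≤ tpow τ d := by
  unfold tpow; split_ifs
  · exact le_rfl
  · positivity

theorem tpow_D0_le {X : Type} {τ : ℝ} (h0 : 0 < τ) (h1 : τ < 1) (f : FreeGroup X) (n : ℕ)
    (hf : f ∈ gam X n) : tpow τ (D0 f) ≤ τ ^ n := by
  have hle : (n : ℕ∞) ≤ D0 f := le_iSup₂_of_le (f := fun (n : ℕ) (_ : f ∈ gam X n) => (n : ℕ∞))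
    n hf le_rfl
  unfold tpow; split_ifs with h
  · positivity
  · apply pow_le_pow_of_le_one h0.le h1.le
    obtain ⟨m, hm⟩ := ENat.ne_top_iff_exists.1 h
    rw [← hm] at hle ⊢
    simpa using hle

theorem main : ∃ (G : Type) (_ : Group G), IsGSCharZero G ∧
    ∀ H : Subgroup G, H.FiniteIndex → b1 H ≤ 2 := by
  classical
  obtain ⟨e, he⟩ := Countable.exists_injective_nat (FreeGroup (Fin 2) × Fin 2)
  let rel : FreeGroup (Fin 2) × Fin 2 → FreeGroup (Fin 2) :=
    fun p => engel (FreeGroup.of p.2) (e p + 7) p.1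
  let R : Set (FreeGroup (Fin 2)) := Set.range rel
  refine ⟨PresentedGroup R, inferInstance, ⟨2, R, ⟨MulEquiv.refl _⟩, 3 / 4, by norm_num,
    by norm_num, ?_⟩, ?_⟩
  · let p : R → FreeGroup (Fin 2) × Fin 2 := fun r => r.2.choose
    have hp : ∀ r : R, rel (p r) = r.1 := fun r => r.2.choose_spec
    have hpi : Function.Injective (fun r : R => e (p r)) := by
      intro r s hrs
      have := he hrs
      apply Subtype.ext
      rw [← hp r, ← hp s, this]
    have hle : ∀ r : R, tpow (3 / 4) (D0 r.1) ≤ (3 / 4 : ℝ) ^ (e (p r) + 8) := by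
      intro r
      apply tpow_D0_le (by norm_num) (by norm_num)
      rw [← hp r]
      exact engel_mem _ _ _
    have hs : HasSum (fun n : ℕ => (3 / 4 : ℝ) ^ (n + 8)) ((3 / 4 : ℝ) ^ 8 * 4) := by
      have := (hasSum_geometric_of_lt_one (r := (3 / 4 : ℝ)) (by norm_num) (by norm_num)).mul_left
        ((3 / 4 : ℝ) ^ 8)
      have e1 : (fun n : ℕ => (3 / 4 : ℝ) ^ (n + 8))
          = fun n : ℕ => (3 / 4 : ℝ) ^ 8 * (3 / 4 : ℝ) ^ n := by funext n; ring
      have e2 : (3 / 4 : ℝ) ^ 8 * 4 = (3 / 4 : ℝ) ^ 8 * (1 - 3 / 4)⁻¹ := by norm_num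
      rw [e1, e2]
      exact this
    have hsum : Summable (fun r : R => tpow (3 / 4) (D0 r.1)) :=
      Summable.of_nonneg_of_le (fun r => tpow_nonneg (by norm_num) _) hle
        (hs.summable.comp_injective hpi)
    refine ⟨hsum, ?_⟩
    have := hsum.tsum_le_tsum_of_inj (fun r : R => e (p r)) hpi
      (fun n _ => by positivity) hle hs.summable
    rw [hs.tsum_eq] at this
    have h2 : (1 : ℝ) - ((2 : ℕ) : ℝ) * (3 / 4) + (3 / 4 : ℝ) ^ 8 * 4 < 0 := by norm_num
    linarith
  · intro H hH
    have := b1_le 2 (fun i : Fin 2 => (PresentedGroup.of i : PresentedGroup R))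
      (PresentedGroup.closure_range_of R) (fun i h => by
        obtain ⟨g, rfl⟩ := PresentedGroup.mk_surjective R h
        refine ⟨e (g, i) + 7, ?_⟩
        have h1 := PresentedGroup.one_of_mem (rels := R) (x := rel (g, i)) ⟨_, rfl⟩
        simp only [rel, map_engel] at h1
        exact h1) H
    exact_mod_cast this

end Pool.Agent.H286Z.GS
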